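import Pool.Agent.helper76.LP.Defs3

/-! # Project FQ, module N2: two subgroups -/

namespace Pool.Agent.helper76.LP

open Finset

theorem nd_two {G ι : Type*} [CommGroup G] (Γ : ι → Subgroup G) (i j : ι) (hij : i ≠ j)
    (htop : Γ i ⊔ Γ j = ⊤) (ν₁ ν₂ : G) (h1 : ν₁ ∈ Γ i) (h2 : ν₂ ∈ Γ j) (h11 : ν₁ * ν₁ = 1)
    (h22 : ν₂ * ν₂ = 1) (f : G → ℤ) (hodd : ∀ x, f (ν₁ * ν₂ * x) = - f x)
    (hf : MDv Γ [i, j] f) (hev : Even (f 1 + f ν₁)) : GDec Γ [i, j] (ν₁ * ν₂) f := by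
  classical
  have hmd : ∀ u ∈ Γ i, ∀ v ∈ Γ j, ∀ x, f (u * (v * x)) - f (v * x) - (f (u * x) - f x) = 0 :=
    fun u hu v hv x => hf u hu v hv x
  have hn1 : ∀ x, f (ν₁ * x) = - f (ν₂ * x) := by
    intro x
    have := hodd (ν₂ * x)
    rw [show ν₁ * ν₂ * (ν₂ * x) = ν₁ * x by
      rw [mul_assoc, ← mul_assoc ν₂ ν₂ x, h22, one_mul]] at this
    exact this
  -- `g` is invariant under `Γ j`, `h` under `Γ i`
  have hg : ∀ v ∈ Γ j, ∀ x, f (v * x) - f (ν₁ * (v * x)) = f x - f (ν₁ * x) := by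
    intro v hv x
    have := hmd ν₁ h1 v hv x
    linarith
  have hh : ∀ u ∈ Γ i, ∀ x, f (u * x) + f (ν₁ * (u * x)) = f x + f (ν₁ * x) := by
    intro u hu x
    have := hmd u hu ν₂ h2 x
    rw [hn1 (u * x), hn1 x]
    rw [show ν₂ * (u * x) = u * (ν₂ * x) by rw [← mul_assoc, mul_comm ν₂ u, mul_assoc]]
    linarith
  -- parity
  have hpar : ∀ x, Even (f x + f (ν₁ * x)) := by
    intro x
    have hx : x ∈ Γ i ⊔ Γ j := by rw [htop]; exact Subgroup.mem_top x
    obtain ⟨a, ha, b, hb, rfl⟩ := Subgroup.mem_sup.1 hx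
    rw [hh a ha b]
    have := hg b hb 1
    rw [mul_one, mul_one] at this
    have h3 : f b + f (ν₁ * b) = (f 1 + f ν₁) + 2 * (f (ν₁ * b) - f ν₁) := by linarith
    rw [h3]
    exact hev.add (even_two_mul _)
  have hpar2 : ∀ x, Even (f x - f (ν₁ * x)) := by
    intro x
    have h3 : f x - f (ν₁ * x) = f x + f (ν₁ * x) + 2 * (-(f (ν₁ * x))) := by ring
    rw [h3]
    exact (hpar x).add (even_two_mul _)
  refine ⟨fun k => if k = i then fun x => (f x + f (ν₁ * x)) / 2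
    else fun x => (f x - f (ν₁ * x)) / 2, ?_, ?_, ?_⟩
  · intro k hk u hu x
    rcases List.mem_cons.1 hk with rfl | hk
    · simp only [if_true]
      rw [hh u hu x]
    · rw [List.mem_singleton] at hk
      subst hk
      simp only [if_neg hij.symm]
      rw [hg u hu x]
  · intro x
    simp only [List.map_cons, List.map_nil, List.sum_cons, List.sum_nil, add_zero, if_true]
    rw [if_neg hij.symm]
    obtain ⟨a, ha⟩ := (hpar x).two_dvd
    obtain ⟨b, hb⟩ := (hpar2 x).two_dvd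
    rw [ha, hb, Int.mul_ediv_cancel_left _ two_ne_zero, Int.mul_ediv_cancel_left _ two_ne_zero]
    linarith
  · have he : ∀ x, f (ν₁ * (ν₁ * ν₂ * x)) = - f (ν₁ * x) := by
      intro x
      rw [show ν₁ * (ν₁ * ν₂ * x) = ν₁ * ν₂ * (ν₁ * x) by
        rw [← mul_assoc, mul_comm ν₁ (ν₁ * ν₂), mul_assoc]]
      exact hodd _
    intro k hk x
    rcases List.mem_cons.1 hk with rfl | hk
    · simp only [if_true]
      rw [he x, hodd x]
      obtain ⟨a, ha⟩ := (hpar x).two_dvd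
      rw [ha, show -f x + -f (ν₁ * x) = 2 * (-a) by linarith,
        Int.mul_ediv_cancel_left _ two_ne_zero, Int.mul_ediv_cancel_left _ two_ne_zero]
    · rw [List.mem_singleton] at hk
      subst hk
      simp only [if_neg hij.symm]
      rw [he x, hodd x]
      obtain ⟨a, ha⟩ := (hpar2 x).two_dvd
      rw [ha, show -f x - -f (ν₁ * x) = 2 * (-a) by linarith,
        Int.mul_ediv_cancel_left _ two_ne_zero, Int.mul_ediv_cancel_left _ two_ne_zero]

end Pool.Agent.helper76.LP
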