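import Pool.Agent.helper76.LP.Defs3
import Pool.Agent.helper97.FQ.NE

/-! # Project FQ, module N3: three subgroups -/

namespace Pool.Agent.helper76.LP

open Finset

/-- half systems -/
theorem N3_half {G : Type*} [CommGroup G] (P : Subgroup G) (e : G) (he : e * e = 1) (heP : e ∉ P) :
    ∃ χ : G → ℤ, (∀ p ∈ P, ∀ x, χ (p * x) = χ x) ∧ (∀ x, χ (e * x) = 1 - χ x) := by
  classical
  set Q : Subgroup G := P ⊔ Subgroup.zpowers e with hQ
  have hmem : ∀ x, x ∈ Q ↔ x ∈ P ∨ e * x ∈ P := by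
    intro x
    constructor
    · intro hx
      obtain ⟨p, hp, z, hz, rfl⟩ := Subgroup.mem_sup.1 hx
      obtain ⟨k, rfl⟩ := Subgroup.mem_zpowers_iff.1 hz
      have he2 : e ^ (2 : ℤ) = 1 := by rw [zpow_two, he]
      rcases Int.even_or_odd' k with ⟨c, rfl | rfl⟩
      · left
        rw [zpow_mul, he2, one_zpow, mul_one]
        exact hp
      · right
        rw [zpow_add, zpow_mul, he2, one_zpow, one_mul, zpow_one, mul_comm p e, ← mul_assoc, he,
          one_mul]
        exact hp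
    · rintro (hx | hx)
      · exact Subgroup.mem_sup_left hx
      · have : x = (e * x) * e := by rw [mul_comm e x, mul_assoc, he, mul_one]
        rw [this]
        exact Subgroup.mul_mem_sup hx (Subgroup.mem_zpowers e)
  set r : G → G := fun x => (QuotientGroup.mk (s := Q) x).out with hr
  have hrx : ∀ x, x * (r x)⁻¹ ∈ Q := by
    intro x
    have h1 : (QuotientGroup.mk (s := Q) (r x)) = QuotientGroup.mk x := Quotient.out_eq _
    have h2 := QuotientGroup.eq.1 h1
    rw [mul_comm]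
    exact h2
  have hrp : ∀ q ∈ Q, ∀ x, r (q * x) = r x := by
    intro q hq x
    have : (QuotientGroup.mk (s := Q) (q * x)) = QuotientGroup.mk x := by
      rw [QuotientGroup.eq, mul_inv_rev, mul_assoc, mul_comm, mul_assoc]
      simpa using Q.inv_mem hq
    simp only [hr, this]
  have hPQ : ∀ p ∈ P, p ∈ Q := fun p hp => Subgroup.mem_sup_left hp
  have heQ : e ∈ Q := Subgroup.mem_sup_right (Subgroup.mem_zpowers e)
  refine ⟨fun x => if x * (r x)⁻¹ ∈ P then 1 else 0, ?_, ?_⟩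
  · intro p hp x
    simp only [hrp p (hPQ p hp) x, mul_assoc, P.mul_mem_cancel_left hp]
  · intro x
    simp only [hrp e heQ x, mul_assoc]
    by_cases hx : x * (r x)⁻¹ ∈ P
    · have : e * (x * (r x)⁻¹) ∉ P := by
        rw [P.mul_mem_cancel_right hx]
        exact heP
      rw [if_pos hx, if_neg this]
      norm_num
    · have h2 : e * (x * (r x)⁻¹) ∈ P := by
        rcases (hmem _).1 (hrx x) with h | h
        · exact absurd h hx
        · exact h
      rw [if_neg hx, if_pos h2]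
      norm_num

theorem nd_three {G ι : Type*} [CommGroup G] (Γ : ι → Subgroup G) (i j k : ι) (hij : i ≠ j)
    (hik : i ≠ k) (hjk : j ≠ k) (hI : Indep Γ [i, j, k]) (htop : Γ i ⊔ (Γ j ⊔ Γ k) = ⊤)
    (ν₁ ν₂ ν₃ : G) (h1 : ν₁ ∈ Γ i) (h2 : ν₂ ∈ Γ j) (h3 : ν₃ ∈ Γ k) (h11 : ν₁ * ν₁ = 1)
    (h22 : ν₂ * ν₂ = 1) (h33 : ν₃ * ν₃ = 1) (h10 : ν₁ ≠ 1) (h20 : ν₂ ≠ 1) (h30 : ν₃ ≠ 1)
    (f : G → ℤ) (hodd : ∀ x, f (ν₁ * ν₂ * ν₃ * x) = - f x) (hf : MDv Γ [i, j, k] f) :
    GDec Γ [i, j, k] (ν₁ * ν₂ * ν₃) f := by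
  classical
  -- independence
  have hD1 : Disjoint (Γ i) (Γ j ⊔ Γ k) := by
    have := hI.1
    simpa [Pl] using this
  have hD2 : Disjoint (Γ j) (Γ k) := by
    have := hI.2.1
    simpa [Pl] using this
  -- products are unique
  have huniq : ∀ a ∈ Γ i, ∀ b ∈ Γ j, ∀ c ∈ Γ k, a * b * c = 1 → a = 1 ∧ b = 1 ∧ c = 1 := by
    intro a ha b hb c hc h
    have ha' : a = 1 := by
      have h4 : a = (b * c)⁻¹ := by
        rw [eq_inv_iff_mul_eq_one, ← mul_assoc]; exact h
      have h5 : a ∈ Γ j ⊔ Γ k := by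
        rw [h4]
        exact inv_mem (Subgroup.mul_mem_sup hb hc)
      exact Subgroup.disjoint_def.1 hD1 ha h5
    rw [ha', one_mul] at h
    have hb' : b = 1 := by
      have h4 : b = c⁻¹ := by rw [eq_inv_iff_mul_eq_one]; exact h
      have h5 : b ∈ Γ k := by rw [h4]; exact inv_mem hc
      exact Subgroup.disjoint_def.1 hD2 hb h5
    rw [hb', one_mul] at h
    exact ⟨ha', hb', h⟩
  -- coordinates
  have hdec : ∀ x : G, ∃ a b c : G, a ∈ Γ i ∧ b ∈ Γ j ∧ c ∈ Γ k ∧ x = a * b * c := by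
    intro x
    have hx : x ∈ Γ i ⊔ (Γ j ⊔ Γ k) := by rw [htop]; exact Subgroup.mem_top x
    obtain ⟨a, ha, y, hy, rfl⟩ := Subgroup.mem_sup.1 hx
    obtain ⟨b, hb, c, hc, rfl⟩ := Subgroup.mem_sup.1 hy
    exact ⟨a, b, c, ha, hb, hc, (mul_assoc a b c).symm⟩
  choose p1 p2 p3 m1 m2 m3 hp using hdec
  have hu : ∀ a ∈ Γ i, ∀ b ∈ Γ j, ∀ c ∈ Γ k, p1 (a * b * c) = a ∧ p2 (a * b * c) = b ∧
      p3 (a * b * c) = c := by
    intro a ha b hb c hc
    set x := a * b * c with hx
    have h4 : (a⁻¹ * p1 x) * (b⁻¹ * p2 x) * (c⁻¹ * p3 x) = 1 := by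
      have h5 : (a⁻¹ * p1 x) * (b⁻¹ * p2 x) * (c⁻¹ * p3 x)
          = (a * b * c)⁻¹ * (p1 x * p2 x * p3 x) := by
        rw [mul_inv, mul_inv]
        simp only [mul_assoc, mul_left_comm, mul_comm]
      rw [h5, ← hp x, ← hx, inv_mul_cancel]
    obtain ⟨q1, q2, q3⟩ := huniq _ (mul_mem (inv_mem ha) (m1 x)) _ (mul_mem (inv_mem hb) (m2 x))
      _ (mul_mem (inv_mem hc) (m3 x)) h4
    exact ⟨(inv_mul_eq_one.1 q1).symm, (inv_mul_eq_one.1 q2).symm, (inv_mul_eq_one.1 q3).symm⟩
  -- how the coordinates change under multiplication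
  have hmi : ∀ u ∈ Γ i, ∀ x, p1 (u * x) = u * p1 x ∧ p2 (u * x) = p2 x ∧ p3 (u * x) = p3 x := by
    intro u hu' x
    have h4 : u * x = (u * p1 x) * p2 x * p3 x := by
      conv_lhs => rw [hp x]
      simp only [mul_assoc]
    have h5 := hu _ (mul_mem hu' (m1 x)) _ (m2 x) _ (m3 x)
    rw [← h4] at h5
    exact h5
  have hmj : ∀ u ∈ Γ j, ∀ x, p1 (u * x) = p1 x ∧ p2 (u * x) = u * p2 x ∧ p3 (u * x) = p3 x := by
    intro u hu' x
    have h4 : u * x = p1 x * (u * p2 x) * p3 x := by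
      conv_lhs => rw [hp x]
      simp only [mul_left_comm, mul_assoc]
    have h5 := hu _ (m1 x) _ (mul_mem hu' (m2 x)) _ (m3 x)
    rw [← h4] at h5
    exact h5
  have hmk : ∀ u ∈ Γ k, ∀ x, p1 (u * x) = p1 x ∧ p2 (u * x) = p2 x ∧ p3 (u * x) = u * p3 x := by
    intro u hu' x
    have h4 : u * x = p1 x * p2 x * (u * p3 x) := by
      conv_lhs => rw [hp x]
      simp only [mul_left_comm, mul_assoc]
    have h5 := hu _ (m1 x) _ (m2 x) _ (mul_mem hu' (m3 x))
    rw [← h4] at h5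
    exact h5
  -- the decomposition without oddness
  obtain ⟨N, hN1, hN2⟩ := nd_exists Γ [i, j, k] (by simp [hij, hik, hjk]) hI f hf
  have hNi := hN1 i (by simp)
  have hNj := hN1 j (by simp)
  have hNk := hN1 k (by simp)
  have hsum : ∀ x, f x = N i x + (N j x + N k x) := by
    intro x
    have := hN2 x
    simpa using this
  set e := ν₁ * ν₂ * ν₃ with he
  have hee : e * e = 1 := by
    have : e * e = (ν₁ * ν₁) * (ν₂ * ν₂) * (ν₃ * ν₃) := by
      rw [he]
      simp only [mul_left_comm, mul_assoc]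
    rw [this, h11, h22, h33, one_mul, one_mul]
  have heex : ∀ x, e * (e * x) = x := by
    intro x
    rw [← mul_assoc, hee, one_mul]
  set K : ι → G → ℤ := fun l x => N l x + N l (e * x) with hK
  have hKi : ∀ u ∈ Γ i, ∀ x, K i (u * x) = K i x := by
    intro u hu' x
    simp only [hK]
    rw [hNi u hu' x, mul_left_comm e u x, hNi u hu' (e * x)]
  have hKj : ∀ u ∈ Γ j, ∀ x, K j (u * x) = K j x := by
    intro u hu' x
    simp only [hK]
    rw [hNj u hu' x, mul_left_comm e u x, hNj u hu' (e * x)]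
  have hKk : ∀ u ∈ Γ k, ∀ x, K k (u * x) = K k x := by
    intro u hu' x
    simp only [hK]
    rw [hNk u hu' x, mul_left_comm e u x, hNk u hu' (e * x)]
  have hK0 : ∀ x, K i x + K j x + K k x = 0 := by
    intro x
    have q1 := hsum x
    have q2 := hsum (e * x)
    rw [hodd x] at q2
    simp only [hK]
    linarith
  have hKe : ∀ l x, K l (e * x) = K l x := by
    intro l x
    simp only [hK]
    rw [heex, add_comm]
  -- the three potentials
  set a : G → ℤ := fun x => K k (p1 x) - K k 1 with ha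
  set b : G → ℤ := fun x => K j (p3 x) with hb
  set c : G → ℤ := fun x => - K k (p2 x) with hc
  have hk1 : ∀ x, K i x = c x - b x := by
    intro x
    have q1 : K i x = K i (p2 x * p3 x) := by
      conv_lhs => rw [hp x, mul_assoc]
      exact hKi _ (m1 x) _
    have q2 : K j (p2 x * p3 x) = K j (p3 x) := hKj _ (m2 x) _
    have q3 : K k (p2 x * p3 x) = K k (p2 x) := by
      rw [mul_comm]; exact hKk _ (m3 x) _
    have q4 := hK0 (p2 x * p3 x)
    simp only [hb, hc]
    linarith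
  have hk2 : ∀ x, K j x = b x - a x := by
    intro x
    have q1 : K j x = K j (p1 x * p3 x) := by
      conv_lhs => rw [hp x, mul_comm (p1 x) (p2 x), mul_assoc]
      exact hKj _ (m2 x) _
    have q2 : K i (p1 x * p3 x) = K i (p3 x) := hKi _ (m1 x) _
    have q3 : K k (p1 x * p3 x) = K k (p1 x) := by
      rw [mul_comm]; exact hKk _ (m3 x) _
    have q4 := hK0 (p1 x * p3 x)
    have q5 := hK0 (p3 x)
    have q6 : K k (p3 x) = K k 1 := by
      have := hKk _ (m3 x) 1
      rwa [mul_one] at this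
    simp only [hb, ha]
    linarith
  have hk3 : ∀ x, K k x = a x - c x := by
    intro x
    have := hK0 x
    rw [hk1, hk2] at this
    linarith
  -- invariance of the potentials
  have aj : ∀ u ∈ Γ j, ∀ x, a (u * x) = a x := by
    intro u hu' x; simp only [ha]; rw [(hmj u hu' x).1]
  have ak : ∀ u ∈ Γ k, ∀ x, a (u * x) = a x := by
    intro u hu' x; simp only [ha]; rw [(hmk u hu' x).1]
  have bi : ∀ u ∈ Γ i, ∀ x, b (u * x) = b x := by
    intro u hu' x; simp only [hb]; rw [(hmi u hu' x).2.2]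
  have bj : ∀ u ∈ Γ j, ∀ x, b (u * x) = b x := by
    intro u hu' x; simp only [hb]; rw [(hmj u hu' x).2.2]
  have ci : ∀ u ∈ Γ i, ∀ x, c (u * x) = c x := by
    intro u hu' x; simp only [hc]; rw [(hmi u hu' x).2.1]
  have ck : ∀ u ∈ Γ k, ∀ x, c (u * x) = c x := by
    intro u hu' x; simp only [hc]; rw [(hmk u hu' x).2.1]
  -- evenness
  have hba : ∀ x, b (e * x) - b x = a (e * x) - a x := by
    intro x
    have q1 := hKe j x
    rw [hk2, hk2] at q1
    linarith
  have hcb : ∀ x, c (e * x) - c x = b (e * x) - b x := by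
    intro x
    have q1 := hKe i x
    rw [hk1, hk1] at q1
    linarith
  have hconst : ∀ x, a (e * x) - a x = a (e * 1) - a 1 := by
    intro x
    conv_lhs => rw [hp x]
    -- remove `p1` with `b`, `p2`, `p3` with `a`
    have q1 : ∀ u ∈ Γ j, ∀ y, a (e * (u * y)) - a (u * y) = a (e * y) - a y := by
      intro u hu' y
      rw [mul_left_comm e u y, aj u hu', aj u hu']
    have q2 : ∀ u ∈ Γ k, ∀ y, a (e * (u * y)) - a (u * y) = a (e * y) - a y := by
      intro u hu' y
      rw [mul_left_comm e u y, ak u hu', ak u hu']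
    have q3 : ∀ u ∈ Γ i, ∀ y, a (e * (u * y)) - a (u * y) = a (e * y) - a y := by
      intro u hu' y
      rw [← hba, ← hba, mul_left_comm e u y, bi u hu', bi u hu']
    have q4 : p1 x * p2 x * p3 x = p1 x * (p2 x * (p3 x * 1)) := by rw [mul_one, mul_assoc]
    rw [q4, q3 _ (m1 x), q1 _ (m2 x), q2 _ (m3 x)]
  have hae : ∀ x, a (e * x) = a x := by
    intro x
    have q1 := hconst x
    have q2 := hconst (e * x)
    rw [heex] at q2
    linarith
  have hbe : ∀ x, b (e * x) = b x := by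
    intro x
    have := hba x
    rw [hae] at this
    linarith
  have hce : ∀ x, c (e * x) = c x := by
    intro x
    have := hcb x
    rw [hbe] at this
    linarith
  -- half systems
  have he1 : e ∉ Γ j ⊔ Γ k := by
    intro h4
    have h5 : ν₁ ∈ Γ j ⊔ Γ k := by
      have h6 : ν₁ = e * (ν₂ * ν₃)⁻¹ := by
        rw [he, mul_assoc ν₁ ν₂ ν₃, mul_inv_cancel_right]
      rw [h6]
      exact mul_mem h4 (inv_mem (Subgroup.mul_mem_sup h2 h3))
    exact h10 (Subgroup.disjoint_def.1 hD1 h1 h5)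
  have he3 : e ∉ Γ i ⊔ Γ j := by
    intro h4
    obtain ⟨x, hx, y, hy, hxy⟩ := Subgroup.mem_sup.1 h4
    have h5 : (x⁻¹ * ν₁) * (y⁻¹ * ν₂) * ν₃ = 1 := by
      have h6 : (x⁻¹ * ν₁) * (y⁻¹ * ν₂) * ν₃ = (x * y)⁻¹ * e := by
        rw [he, mul_inv]
        simp only [mul_left_comm, mul_assoc]
      rw [h6, hxy, inv_mul_cancel]
    exact h30 (huniq _ (mul_mem (inv_mem hx) h1) _ (mul_mem (inv_mem hy) h2) _ h3 h5).2.2
  have he2 : e ∉ Γ i ⊔ Γ k := by
    intro h4
    obtain ⟨x, hx, y, hy, hxy⟩ := Subgroup.mem_sup.1 h4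
    have h5 : (x⁻¹ * ν₁) * ν₂ * (y⁻¹ * ν₃) = 1 := by
      have h6 : (x⁻¹ * ν₁) * ν₂ * (y⁻¹ * ν₃) = (x * y)⁻¹ * e := by
        rw [he, mul_inv]
        simp only [mul_left_comm, mul_assoc]
      rw [h6, hxy, inv_mul_cancel]
    exact h20 (huniq _ (mul_mem (inv_mem hx) h1) _ h2 _ (mul_mem (inv_mem hy) h3) h5).2.1
  obtain ⟨χ₁, hχ1, hχ1e⟩ := N3_half (Γ j ⊔ Γ k) e hee he1
  obtain ⟨χ₂, hχ2, hχ2e⟩ := N3_half (Γ i ⊔ Γ k) e hee he2
  obtain ⟨χ₃, hχ3, hχ3e⟩ := N3_half (Γ i ⊔ Γ j) e hee he3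
  refine ⟨fun l x => N l x - (if l = i then c x * χ₂ x - b x * χ₃ x
    else if l = j then b x * χ₃ x - a x * χ₁ x else a x * χ₁ x - c x * χ₂ x), ?_, ?_, ?_⟩
  · intro l hl u hu' x
    simp only [List.mem_cons, List.not_mem_nil, or_false] at hl
    rcases hl with rfl | rfl | rfl
    · simp only [if_true]
      rw [hNi u hu' x, ci u hu' x, bi u hu' x, hχ2 u (Subgroup.mem_sup_left hu') x,
        hχ3 u (Subgroup.mem_sup_left hu') x]
    · simp only [if_neg hij.symm, if_true]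
      rw [hNj u hu' x, aj u hu' x, bj u hu' x, hχ3 u (Subgroup.mem_sup_right hu') x,
        hχ1 u (Subgroup.mem_sup_left hu') x]
    · simp only [if_neg hik.symm, if_neg hjk.symm]
      rw [hNk u hu' x, ak u hu' x, ck u hu' x, hχ1 u (Subgroup.mem_sup_right hu') x,
        hχ2 u (Subgroup.mem_sup_right hu') x]
  · intro x
    rw [hsum x]
    simp only [List.map_cons, List.map_nil, List.sum_cons, List.sum_nil, add_zero, if_true,
      if_neg hij.symm, if_neg hik.symm, if_neg hjk.symm]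
    ring
  · intro l hl x
    simp only [List.mem_cons, List.not_mem_nil, or_false] at hl
    rcases hl with rfl | rfl | rfl
    · simp only [if_true]
      have := hk1 x
      simp only [hK] at this
      rw [hce, hbe, hχ2e, hχ3e]
      linarith
    · simp only [if_neg hij.symm, if_true]
      have := hk2 x
      simp only [hK] at this
      rw [hae, hbe, hχ1e, hχ3e]
      linarith
    · simp only [if_neg hik.symm, if_neg hjk.symm]
      have := hk3 x
      simp only [hK] at this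
      rw [hae, hce, hχ1e, hχ2e]
      linarith

end Pool.Agent.helper76.LP
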